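import Pool.Agent.H58.SE.AB

/-! se_modules AC: countability in models of ZFm -/

set_option linter.unusedVariables false

open Ordinal Order Set
open scoped ZFSet

namespace SE

open SF

namespace H59

open CAA Pool.Agent.H69.CA Pool.Agent.H89.CA.QE

/-- the set of the entries of a coded list -/
noncomputable def Es (s : V) : V :=
  open Classical in
  if h : IsPr s then insert (SF.fst s) (Es (SF.snd s)) else ∅
termination_by s.rank
decreasing_by exact rank_snd_lt h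

theorem Es_empty : Es (∅ : V) = ∅ := by
  rw [Es, dif_neg]
  rintro ⟨x, y, h⟩
  exact pair_ne_empty x y h.symm

theorem Es_pair (x y : V) : Es (ZFSet.pair x y) = insert x (Es y) := by
  rw [Es, dif_pos ⟨x, y, rfl⟩, fst_pair, snd_pair]

theorem mem_Es_lc (l : List V) (a : V) : a ∈ Es (lc l) ↔ a ∈ l := by
  induction l with
  | nil =>
    show a ∈ Es ∅ ↔ _
    rw [Es_empty]
    simp
  | cons b l ih =>
    show a ∈ Es (ZFSet.pair b (lc l)) ↔ _
    rw [Es_pair, ZFSet.mem_insert_iff, ih, List.mem_cons]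

theorem tm_Es : Tm ZFm (fun _ v => Es (v 0)) := by
  refine tm_recu (ext := fun _ v => sel (IsPr (v 0)) {SF.snd (v 0)} ∅)
    (Φ := fun M u => sel (IsPr (u 1)) (insert (SF.fst (u 1)) (SF.app (u 0) (SF.snd (u 1)))) ∅)
    ZFSet.rank ?_ ?_ ?_ ?_
  · exact Tm.sel (Dfb.isPr (Tm.var 0)) (Tm.sing (Tm.snd (Tm.var 0))) Tm.empty
  · exact Tm.sel (Dfb.isPr (Tm.var 1)) (Tm.ins (Tm.fst (Tm.var 1))
      (Tm.app (Tm.var 0) (Tm.snd (Tm.var 1)))) Tm.empty
  · intro M k v hv y hy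
    by_cases h : IsPr (v 0)
    · rw [sel_pos h, ZFSet.mem_singleton] at hy
      rw [hy]
      exact rank_snd_lt h
    · rw [sel_neg h] at hy
      exact absurd hy (ZFSet.notMem_empty _)
  · intro M k v hv
    simp only [cons_zero, cons_succ]
    by_cases h : IsPr (v 0)
    · rw [sel_pos h, sel_pos h]
      obtain ⟨x, y, hxy⟩ := h
      rw [hxy, snd_pair, fst_pair, Es_pair, app_resS (ZFSet.mem_singleton.2 rfl)]
    · rw [sel_neg h, Es, dif_neg h]

theorem rg_Es (x : V) : rg (resS (Lw x) Es) = Fs x := by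
  ext y
  rw [mem_rg, H58.mem_Fs]
  constructor
  · rintro ⟨s, hs⟩
    obtain ⟨hs1, rfl⟩ := pair_mem_resS.1 hs
    obtain ⟨l, hl, rfl⟩ := mem_Lw.1 hs1
    refine ⟨fun a ha => hl a ((mem_Es_lc l a).1 ha), ?_⟩
    exact (List.finite_toSet l).subset fun a ha => (mem_Es_lc l a).1 ha
  · rintro ⟨h1, h2⟩
    refine ⟨lc h2.toFinset.toList, pair_mem_resS.2 ⟨mem_Lw.2 ⟨_, ?_, rfl⟩, ?_⟩⟩
    · intro p hp
      rw [Finset.mem_toList, Set.Finite.mem_toFinset] at hp
      exact h1 hp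
    · ext a
      rw [mem_Es_lc, Finset.mem_toList, Set.Finite.mem_toFinset]
      exact Iff.rfl

variable {M : V → Prop}

theorem ctbl_Fs (k : ZFm M) {x : V} (hx : Ctbl M x) : Ctbl M (Fs x) := by
  obtain ⟨hC, -⟩ := C0_mem k
  have hD := pf_DF M k C0 hC gd_C0
  have hxM : M x := H58.ctbl_mem k hx
  rw [ctbl_iff k] at hx ⊢
  have h1 : Sm M C0 (Lw x) := hD.2.2.2.2.2.1 x hx
  have h2 : M (resS (Lw x) Es) :=
    (Tm.resS (g := fun _ u => Es (u 0)) (Tm.Lw (Tm.var 0)) (tm_Es)).1 M k (fun _ => x)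
      fun _ => hxM
  have h3 := hD.2.2.2.2.2.2.1 (Lw x) (resS (Lw x) Es) h1 h2 (svl_resS _ _) (dm_resS _ _)
  rwa [rg_Es] at h3

end H59

open CAA Pool.Agent.H69.CA Pool.Agent.H89.CA.QE

/-- AC -/
theorem pf_AC : T_AC := by
  intro M k
  obtain ⟨hC, -⟩ := C0_mem k
  have hD := pf_DF M k C0 hC gd_C0
  have hsub : ∀ x y, M x → Ctbl M y → x ⊆ y → Ctbl M x := by
    intro x y hx hy hxy
    rw [ctbl_iff k] at hy ⊢
    exact hD.2.2.1 x y hx hy hxy
  refine ⟨fun x h => H58.ctbl_mem k h, hsub, ?_, ?_, fun x hx => H59.ctbl_Fs k hx, ?_⟩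
  · intro x y hx hy
    rw [ctbl_iff k] at hx hy ⊢
    exact hD.2.2.2.1 x y hx hy
  · intro x y hx hy
    rw [ctbl_iff k] at hx hy ⊢
    exact hD.2.2.2.2.1 x y hx hy
  · intro x f hf hs hx hd
    have h1 : Ctbl M (dm f) := hsub _ _ ((Tm.dm (Tm.var 0)).1 M k (fun _ => f) fun _ => hf) hx hd
    rw [ctbl_iff k] at h1 ⊢
    exact hD.2.2.2.2.2.2.1 (dm f) f h1 hf hs rfl

end SE
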