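import Pool.Agent.H38.SE.TarA

/-! se_modules AI: definability of the projective notions -/

set_option linter.unusedVariables false

open Ordinal Order Set
open scoped ZFSet

namespace SE

open SF

namespace H59

variable {f g h : (V → Prop) → (ℕ → V) → V}

theorem tm_hf (hAA : T_AA) : Tm ZFm (fun _ _ => hf) := hAA.2.2.2.2.2.2.2.1

theorem dfb_rl (hAA : T_AA) (hf1 : Tm ZFm f) : Dfb ZFm (fun M v => Rl (f M v)) := by
  refine Dfb.at1 (P := fun _ x => Rl x) ?_ hf1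
  exact (Dfb.isFunc Tm.om (tm_hf hAA) (Tm.var 0)).congr fun M k v hv => Iff.rfl

theorem tm_rs (hf1 : Tm ZFm f) (hg : Tm ZFm g) : Tm ZFm (fun M v => rs (f M v) (g M v)) := by
  refine Tm.at2 (F := fun _ x y => rs x y) ?_ hf1 hg
  exact (Tm.sep (R := fun _ v => SF.fst (v 0) ∈ v 2) (Dfb.mem (Tm.fst (Tm.var 0)) (Tm.var 2))
    (Tm.var 0)).congr fun M k v hv => rfl

theorem tm_prl (hf1 : Tm ZFm f) (hg : Tm ZFm g) : Tm ZFm (fun M v => prl (f M v) (g M v)) := by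
  refine Tm.at2 (F := fun _ x y => prl x y) ?_ hf1 hg
  exact (Tm.resS (g := fun _ v => ZFSet.pair (SF.app (v 1) (v 0)) (SF.app (v 2) (v 0))) Tm.om
    (Tm.pair (Tm.app (Tm.var 1) (Tm.var 0)) (Tm.app (Tm.var 2) (Tm.var 0)))).congr
      fun M k v hv => rfl

theorem tm_kc (e : ℕ) : Tm ZFm (fun _ _ => kc e) :=
  (Tm.resS (g := fun _ _ => nS e) Tm.om (Tm.nS e)).congr fun M k v hv => rfl

theorem dfb_opn (hf1 : Tm ZFm f) (hg : Tm ZFm g) : Dfb ZFm (fun M v => Opn (f M v) (g M v)) := by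
  refine Dfb.at2 (P := fun _ x y => Opn x y) ?_ hf1 hg
  refine (Dfb.bex (R := fun _ v => ∃ m ∈ om, SF.app (v 1) (v 0) = rs (v 2) m) ktr_zfm Tm.om
    ?_).congr fun M k v hv => Iff.rfl
  exact (Dfb.bex (R := fun _ v => SF.app (v 2) (v 1) = rs (v 3) (v 0)) ktr_zfm Tm.om
    (Dfb.eq (Tm.app (Tm.var 2) (Tm.var 1)) (tm_rs (Tm.var 3) (Tm.var 0)))).congr
      fun M k v hv => Iff.rfl

theorem dfb_p3 (hAA : T_AA) (hf1 : Tm ZFm f) (hg : Tm ZFm g) :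
    Dfb ZFm (fun M v => P3 M (f M v) (g M v)) := by
  refine Dfb.at2 (P := fun M x y => P3 M x y) ?_ hf1 hg
  -- innermost: variables y3 y2 y1 a x
  have h3 : Dfb ZFm (fun _ v => Rl (v 0) → Opn (v 3) (prl (prl (prl (v 4) (v 2)) (v 1)) (v 0))) :=
    (dfb_rl hAA (Tm.var 0)).imp (dfb_opn (Tm.var 3)
      (tm_prl (tm_prl (tm_prl (Tm.var 4) (Tm.var 2)) (Tm.var 1)) (Tm.var 0)))
  have h2 : Dfb ZFm (fun M v => Rl (v 0) ∧ ∀ y3, M y3 → Rl y3 →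
      Opn (v 2) (prl (prl (prl (v 3) (v 1)) (v 0)) y3)) :=
    (dfb_rl hAA (Tm.var 0)).and (h3.all.congr fun M k v hv => Iff.rfl)
  have h1 : Dfb ZFm (fun M v => Rl (v 0) → ∃ y2, M y2 ∧ Rl y2 ∧ ∀ y3, M y3 → Rl y3 →
      Opn (v 1) (prl (prl (prl (v 2) (v 0)) y2) y3)) :=
    (dfb_rl hAA (Tm.var 0)).imp (h2.ex.congr fun M k v hv => Iff.rfl)
  exact h1.all.congr fun M k v hv => Iff.rfl

theorem dfb_s4 (hAA : T_AA) (hf1 : Tm ZFm f) (hg : Tm ZFm g) :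
    Dfb ZFm (fun M v => S4 M (f M v) (g M v)) := by
  refine Dfb.at2 (P := fun M x y => S4 M x y) ?_ hf1 hg
  have h1 : Dfb ZFm (fun M v => Rl (v 0) ∧ P3 M (v 1) (prl (v 2) (v 0))) :=
    (dfb_rl hAA (Tm.var 0)).and (dfb_p3 hAA (Tm.var 1) (tm_prl (Tm.var 2) (Tm.var 0)))
  exact h1.ex.congr fun M k v hv => Iff.rfl

theorem dfb_cod (hAA : T_AA) (hf1 : Tm ZFm f) (hg : Tm ZFm g) :
    Dfb ZFm (fun M v => Cod M (f M v) (g M v)) := by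
  refine Dfb.at2 (P := fun M x y => Cod M x y) ?_ hf1 hg
  -- variables: f L t
  have h1 : Dfb ZFm (fun _ v => ∀ n ∈ om, ∃ j ∈ hf, SF.app (v 0) n = ZFSet.pair (rs (v 2) n) j) := by
    refine (Dfb.ball (R := fun _ v => ∃ j ∈ hf, SF.app (v 1) (v 0) = ZFSet.pair (rs (v 3) (v 0)) j)
      ktr_zfm Tm.om ?_).congr fun M k v hv => Iff.rfl
    exact (Dfb.bex (R := fun _ v => SF.app (v 2) (v 1) = ZFSet.pair (rs (v 4) (v 1)) (v 0))
      ktr_zfm (tm_hf hAA) (Dfb.eq (Tm.app (Tm.var 2) (Tm.var 1))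
        (Tm.pair (tm_rs (Tm.var 4) (Tm.var 1)) (Tm.var 0)))).congr fun M k v hv => Iff.rfl
  have h2 : Dfb ZFm (fun _ v => ∀ l ∈ v 1, ∃ m ∈ om, ∀ n ∈ om, m ⊆ n →
      SF.app (v 0) n ≠ SF.app l n) := by
    refine (Dfb.ball (R := fun _ v => ∃ m ∈ om, ∀ n ∈ om, m ⊆ n →
      SF.app (v 1) n ≠ SF.app (v 0) n) ktr_zfm (Tm.var 1) ?_).congr fun M k v hv => Iff.rfl
    refine (Dfb.bex (R := fun _ v => ∀ n ∈ om, v 0 ⊆ n →
      SF.app (v 2) n ≠ SF.app (v 1) n) ktr_zfm Tm.om ?_).congr fun M k v hv => Iff.rfl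
    exact (Dfb.ball (R := fun _ v => v 1 ⊆ v 0 → SF.app (v 3) (v 0) ≠ SF.app (v 2) (v 0))
      ktr_zfm Tm.om ((Dfb.subset (Tm.var 1) (Tm.var 0)).imp
        (Dfb.eq (Tm.app (Tm.var 3) (Tm.var 0)) (Tm.app (Tm.var 2) (Tm.var 0))).not)).congr
          fun M k v hv => Iff.rfl
  exact ((dfb_rl hAA (Tm.var 0)).and (h1.and h2)).ex.congr fun M k v hv => Iff.rfl

end H59

theorem pf_AI : T_AA → T_AI := fun hAA =>
  ⟨H59.dfb_rl hAA (Tm.var 0), H59.tm_rs (Tm.var 0) (Tm.var 1), H59.tm_prl (Tm.var 0) (Tm.var 1),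
    H59.tm_kc, H59.dfb_opn (Tm.var 0) (Tm.var 1), H59.dfb_p3 hAA (Tm.var 0) (Tm.var 1),
    H59.dfb_s4 hAA (Tm.var 0) (Tm.var 1), H59.dfb_cod hAA (Tm.var 0) (Tm.var 1)⟩

end SE
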