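import Pool.Agent.H9.SE.TarL

/-! LA3: existence and uniqueness of the least triple -/

set_option linter.unusedVariables false

open Ordinal Order Set
open scoped ZFSet

namespace SE

open SF CAA

namespace H59

theorem mem_ins {b : Ordinal.{0}} {z : V} :
    z ∈ insert b.toZFSet b.toZFSet ↔ ∃ u : Ordinal.{0}, u ≤ b ∧ z = u.toZFSet := by
  rw [ZFSet.mem_insert_iff, Ordinal.mem_toZFSet_iff]
  constructor
  · rintro (h | ⟨a, ha, rfl⟩)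
    · exact ⟨b, le_rfl, h⟩
    · exact ⟨a, ha.le, rfl⟩
  · rintro ⟨u, hu, rfl⟩
    rcases hu.lt_or_eq with h | rfl
    · exact Or.inr ⟨u, h, rfl⟩
    · exact Or.inl rfl

theorem lst_iff (ix : V → V → V) (x : V) (β ρ ξ : Ordinal.{0}) :
    Lst ix x β.toZFSet ρ.toZFSet ξ.toZFSet ↔ ρ ≤ β ∧ ξ ≤ β ∧
      Coh x (ix ∅ (ZFSet.pair ρ.toZFSet ξ.toZFSet)) ∧
      (∀ b : Ordinal.{0}, b < β → ∀ u ≤ b, ∀ v ≤ b,
        ¬ Coh x (ix ∅ (ZFSet.pair u.toZFSet v.toZFSet))) ∧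
      (∀ u < ρ, ∀ v ≤ β, ¬ Coh x (ix ∅ (ZFSet.pair u.toZFSet v.toZFSet))) ∧
      ∀ v < ξ, ¬ Coh x (ix ∅ (ZFSet.pair ρ.toZFSet v.toZFSet)) := by
  constructor
  · intro h
    refine ⟨Ordinal.toZFSet_subset_toZFSet_iff.1 h.r, Ordinal.toZFSet_subset_toZFSet_iff.1 h.s,
      h.c, ?_, ?_, ?_⟩
    · intro b hb u hu v hv
      exact h.m1 _ (Ordinal.toZFSet_mem_toZFSet_iff.2 hb) _ (mem_ins.2 ⟨u, hu, rfl⟩) _
        (mem_ins.2 ⟨v, hv, rfl⟩)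
    · intro u hu v hv
      exact h.m2 _ (Ordinal.toZFSet_mem_toZFSet_iff.2 hu) _ (mem_ins.2 ⟨v, hv, rfl⟩)
    · intro v hv
      exact h.m3 _ (Ordinal.toZFSet_mem_toZFSet_iff.2 hv)
  · rintro ⟨h1, h2, h3, h4, h5, h6⟩
    refine ⟨Ordinal.toZFSet_subset_toZFSet_iff.2 h1, Ordinal.toZFSet_subset_toZFSet_iff.2 h2, h3,
      ?_, ?_, ?_⟩
    · intro b hb u hu v hv
      obtain ⟨b, hb1, rfl⟩ := Ordinal.mem_toZFSet_iff.1 hb
      obtain ⟨u, hu1, rfl⟩ := mem_ins.1 hu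
      obtain ⟨v, hv1, rfl⟩ := mem_ins.1 hv
      exact h4 b hb1 u hu1 v hv1
    · intro u hu v hv
      obtain ⟨u, hu1, rfl⟩ := Ordinal.mem_toZFSet_iff.1 hu
      obtain ⟨v, hv1, rfl⟩ := mem_ins.1 hv
      exact h5 u hu1 v hv1
    · intro v hv
      obtain ⟨v, hv1, rfl⟩ := Ordinal.mem_toZFSet_iff.1 hv
      exact h6 v hv1

theorem least {P : Ordinal.{0} → Prop} (h : ∃ a, P a) : ∃ a, P a ∧ ∀ b < a, ¬ P b := by
  obtain ⟨a, ha⟩ := h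
  induction a using WellFoundedLT.induction with
  | _ a ih =>
    by_cases h : ∃ b < a, P b
    · obtain ⟨b, hb, hP⟩ := h
      exact ih b hb hP
    · push Not at h
      exact ⟨a, ha, h⟩

end H59

open H59

theorem pf_LA3 : T_LA3 := by
  intro ix x
  constructor
  · intro ρ ξ δ hρ hξ hc
    obtain ⟨β', ⟨hβ1, u0, hu0, v0, hv0, h0⟩, hβ2⟩ := least (P := fun b => b ≤ max ρ ξ ∧
      ∃ u ≤ b, ∃ v ≤ b, Coh x (ix ∅ (ZFSet.pair u.toZFSet v.toZFSet)))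
      ⟨max ρ ξ, le_rfl, ρ, le_max_left _ _, ξ, le_max_right _ _, hc⟩
    obtain ⟨ρ', ⟨hρ1, v1, hv1, h1⟩, hρ2⟩ := least (P := fun u => u ≤ β' ∧ ∃ v ≤ β',
      Coh x (ix ∅ (ZFSet.pair u.toZFSet v.toZFSet))) ⟨u0, hu0, v0, hv0, h0⟩
    obtain ⟨ξ', ⟨hξ1, h2⟩, hξ2⟩ := least (P := fun v => v ≤ β' ∧
      Coh x (ix ∅ (ZFSet.pair ρ'.toZFSet v.toZFSet))) ⟨v1, hv1, h1⟩
    have hδ : β' < δ := hβ1.trans_lt (max_lt hρ hξ)
    refine ⟨β', ρ', ξ', hδ, hρ1.trans_lt hδ, hξ1.trans_lt hδ, (lst_iff _ _ _ _ _).2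
      ⟨hρ1, hξ1, h2, ?_, ?_, ?_⟩⟩
    · intro b hb u hu v hv hC
      exact hβ2 b hb ⟨hb.le.trans hβ1, u, hu, v, hv, hC⟩
    · intro u hu v hv hC
      exact hρ2 u hu ⟨hu.le.trans hρ1, v, hv, hC⟩
    · intro v hv hC
      exact hξ2 v hv ⟨hv.le.trans hξ1, hC⟩
  · intro β ρ ξ β' ρ' ξ' h h'
    obtain ⟨h1, h2, h3, h4, h5, h6⟩ := (lst_iff _ _ _ _ _).1 h
    obtain ⟨g1, g2, g3, g4, g5, g6⟩ := (lst_iff _ _ _ _ _).1 h'
    have e1 : β = β' := by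
      rcases lt_trichotomy β β' with h7 | h7 | h7
      · exact absurd h3 (g4 β h7 ρ h1 ξ h2)
      · exact h7
      · exact absurd g3 (h4 β' h7 ρ' g1 ξ' g2)
    subst e1
    have e2 : ρ = ρ' := by
      rcases lt_trichotomy ρ ρ' with h7 | h7 | h7
      · exact absurd h3 (g5 ρ h7 ξ h2)
      · exact h7
      · exact absurd g3 (h5 ρ' h7 ξ' g2)
    subst e2
    refine ⟨rfl, rfl, ?_⟩
    rcases lt_trichotomy ξ ξ' with h7 | h7 | h7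
    · exact absurd h3 (g6 ξ h7)
    · exact h7
    · exact absurd g3 (h6 ξ' h7)

end SE
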