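import Pool.Agent.H9.SE.TarL

/-! LD2: the set of the last coordinates is in the model -/

set_option linter.unusedVariables false

open Ordinal Order Set
open scoped ZFSet

namespace SE

open SF CAA

theorem pf_LD2 : T_AF → T_LD2 := by
  intro hAF M k n0 E l hE hl
  have hsq : Tm ZFm (fun _ _ => sq) := hAF.2.2.1
  have key : ∀ n ≤ n0, M (E.sep fun t => ∀ j < n, app t (nS j) ⊆ l j) := by
    intro n
    induction n with
    | zero =>
      intro _
      have e : (E.sep fun t => ∀ j < 0, app t (nS j) ⊆ l j) = E := by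
        ext x
        rw [ZFSet.mem_sep]
        exact ⟨fun h => h.1, fun h => ⟨h, fun j hj => absurd hj (Nat.not_lt_zero j)⟩⟩
      rw [e]
      exact hE
    | succ n ih =>
      intro hn
      have h1 := ih (by omega)
      have hln : M (l n) := hl n (by omega)
      have h2 := (Tm.sep (R := fun _ v => app (v 0) (nS n) ⊆ v 2)
        (Dfb.subset (Tm.app (Tm.var 0) (Tm.nS n)) (Tm.var 2)) (Tm.var 0)).1 M k
        (cons (E.sep fun t => ∀ j < n, app t (nS j) ⊆ l j) fun _ => l n)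
        (In.cons (fun _ => hln) h1)
      have e : (E.sep fun t => ∀ j < n + 1, app t (nS j) ⊆ l j) =
          ((E.sep fun t => ∀ j < n, app t (nS j) ⊆ l j).sep fun t => app t (nS n) ⊆ l n) := by
        ext x
        rw [ZFSet.mem_sep, ZFSet.mem_sep, ZFSet.mem_sep]
        constructor
        · rintro ⟨h3, h4⟩
          exact ⟨⟨h3, fun j hj => h4 j (by omega)⟩, h4 n (by omega)⟩
        · rintro ⟨⟨h3, h4⟩, h5⟩
          refine ⟨h3, fun j hj => ?_⟩
          rcases Nat.lt_succ_iff_lt_or_eq.1 hj with h | rfl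
          · exact h4 j h
          · exact h5
      rw [e]
      exact h2
  have h1 := key n0 le_rfl
  have h2 : Dfb ZFm (fun _ v => ∃ t ∈ v 1, app t (nS n0) = v 0) :=
    (Dfb.bex (R := fun _ v => app (v 0) (nS n0) = v 1) ktr_zfm (Tm.var 1)
      (Dfb.eq (Tm.app (Tm.var 0) (Tm.nS n0)) (Tm.var 1))).congr fun M k v hv => Iff.rfl
  have h3 := (Tm.sep h2 hsq).1 M k (fun _ => E.sep fun t => ∀ j < n0, app t (nS j) ⊆ l j)
    (fun _ => h1)
  have e : (sq.sep fun s => ∃ t ∈ E, app t (nS n0) = s ∧ ∀ j < n0, app t (nS j) ⊆ l j) =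
      sq.sep fun s => ∃ t ∈ (E.sep fun t => ∀ j < n0, app t (nS j) ⊆ l j), app t (nS n0) = s := by
    ext x
    rw [ZFSet.mem_sep, ZFSet.mem_sep]
    refine and_congr_right fun _ => ?_
    constructor
    · rintro ⟨t, h4, h5, h6⟩
      exact ⟨t, ZFSet.mem_sep.2 ⟨h4, h6⟩, h5⟩
    · rintro ⟨t, h4, h5⟩
      exact ⟨t, (ZFSet.mem_sep.1 h4).1, h5, (ZFSet.mem_sep.1 h4).2⟩
  rw [e]
  exact h3

end SE
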